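import Pool.Agent.Helper98.ZB.Stmts
import Pool.Agent.Helper53.ZA.ZTY

/-!
Row ZFC of the sheet ZB (MP_7a8f48_an): joinings on the base.
-/

set_option linter.unusedSectionVars false

open MeasureTheory Filter Topology Finset
open scoped ComplexConjugate

namespace Pool.Agent.Helper53.ZB

open Pool.Agent.Helper98.ZA (ST_ZAC Un)
open Pool.Agent.Helper98.ZB
open Pool.Agent.Helper53.ZA (it_eqv erg_fac fst_inv snd_inv)

/-- ZFC: joinings on the base -/
theorem st_ZFC (hAC : ST_ZAC) : ST_ZFC := by
  intro Y _ ν _ S Ω _ f R hSm hUn hf hR heqv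
  obtain ⟨hSe, hdom⟩ := hAC Y ν S hSm hUn
  have hit := it_eqv hUn.1 heqv
  refine ⟨erg_fac hSe hR hf heqv, fun P Q κ hP hQ hκ hκe => ?_⟩
  have hmp := hκe.toMeasurePreserving
  have hac1 : κ.map Prod.fst ≪ ν := by
    have hpr : IsProbabilityMeasure (κ.map Prod.fst) :=
      Measure.isProbabilityMeasure_map measurable_fst.aemeasurable
    refine Measure.AbsolutelyContinuous.mk fun s hs h0 => ?_
    have := hdom P (κ.map Prod.fst) hP hpr
      (fst_inv (hSm.iterate _) (hSm.iterate _) hmp) s hs
    rw [h0, mul_zero] at this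
    exact le_antisymm this bot_le
  have hac2 : κ.map Prod.snd ≪ ν := by
    have hpr : IsProbabilityMeasure (κ.map Prod.snd) :=
      Measure.isProbabilityMeasure_map measurable_snd.aemeasurable
    refine Measure.AbsolutelyContinuous.mk fun s hs h0 => ?_
    have := hdom Q (κ.map Prod.snd) hQ hpr
      (snd_inv (hSm.iterate _) (hSm.iterate _) hmp) s hs
    rw [h0, mul_zero] at this
    exact le_antisymm this bot_le
  have hff : Measurable (Prod.map f f) := hf.prodMap hf
  have heq : ∀ᵐ z ∂κ, Prod.map f f (Prod.map S^[P] S^[Q] z) =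
      Prod.map R^[P] R^[Q] (Prod.map f f z) := by
    have h1 := ae_of_ae_map measurable_fst.aemeasurable (hac1.ae_le (hit P))
    have h2 := ae_of_ae_map measurable_snd.aemeasurable (hac2.ae_le (hit Q))
    filter_upwards [h1, h2] with z hz1 hz2
    exact Prod.ext hz1 hz2
  refine ⟨hac1, hac2, erg_fac hκe ((hR.iterate _).prodMap (hR.iterate _)) hff heq, ?_, ?_⟩
  · rw [Measure.map_map measurable_fst hff]
    have : Prod.fst ∘ Prod.map f f = f ∘ Prod.fst := rfl
    rw [this, ← Measure.map_map hf measurable_fst]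
    exact hac1.map hf
  · rw [Measure.map_map measurable_snd hff]
    have : Prod.snd ∘ Prod.map f f = f ∘ Prod.snd := rfl
    rw [this, ← Measure.map_map hf measurable_snd]
    exact hac2.map hf

end Pool.Agent.Helper53.ZB
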